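import Mathlib

/-!
# CNF formulas
-/

set_option autoImplicit false

namespace Pool.Agent.Helper38.ISO

/-- A clause on `n` variables: a finite set of literals `(i, b)`. -/
abbrev Clause (n : ℕ) := Finset (Fin n × Bool)

/-- A CNF formula on `n` variables: a finite set of clauses. -/
abbrev CNF (n : ℕ) := Finset (Clause n)

/-- The assignment `x` satisfies the formula `F`: every clause contains a literal `(i, b)` with
`x i = b`. -/
def Sat {n : ℕ} (x : Fin n → Bool) (F : CNF n) : Prop :=
  ∀ C ∈ F, ∃ l ∈ C, x l.1 = l.2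

/-- `F` is a `k`-CNF: every clause has at most `k` literals. -/
def IsK {n : ℕ} (k : ℕ) (F : CNF n) : Prop := ∀ C ∈ F, C.card ≤ k

/-- The formula `F` isolates: exactly one element of `S` satisfies `F`. -/
def Isolates {n : ℕ} (F : CNF n) (S : Set (Fin n → Bool)) : Prop :=
  ∃! x : Fin n → Bool, x ∈ S ∧ Sat x F

instance {n : ℕ} (x : Fin n → Bool) (F : CNF n) : Decidable (Sat x F) := by
  unfold Sat; infer_instance

end Pool.Agent.Helper38.ISO
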