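import Mathlib
import Pool.Agent.Helper38.ISO.Defs

/-!
# Isolated solutions of a `k`-CNF
-/

set_option autoImplicit false

namespace Pool.Agent.Helper38.ISO

open Finset

/-- `x` with the `i`-th bit flipped. -/
def flip {n : ℕ} (x : Fin n → Bool) (i : Fin n) : Fin n → Bool := Function.update x i (!x i)

/-- The directions in which the assignment is isolated. -/
def isol {n : ℕ} (F : CNF n) (s : Fin n → Bool) : Finset (Fin n) :=
  univ.filter fun i => ¬ Sat (flip s i) F

/-- The variables which are forced by the earlier ones in the order `π`. -/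
def drp {n : ℕ} (F : CNF n) (π : Equiv.Perm (Fin n)) (s : Fin n → Bool) : Finset (Fin n) :=
  univ.filter fun i => ∃ C ∈ F, ∃ b : Bool, (i, b) ∈ C ∧
    ∀ l ∈ C, l ≠ (i, b) → π l.1 < π i ∧ s l.1 ≠ l.2

lemma drp_forced {n : ℕ} {F : CNF n} {s : Fin n → Bool} (hs : Sat s F) {C : Clause n}
    (hC : C ∈ F) {i : Fin n} {b : Bool} (h : ∀ l ∈ C, l ≠ (i, b) → s l.1 ≠ l.2) : s i = b := by
  obtain ⟨l, hl, hx⟩ := hs C hC
  by_cases h1 : l = (i, b)
  · subst h1; exact hx
  · exact absurd hx (h l hl h1)

lemma sum_two_pow_drp_le {n : ℕ} (F : CNF n) (π : Equiv.Perm (Fin n)) :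
    ∑ s ∈ univ.filter (fun s => Sat s F), 2 ^ (drp F π s).card ≤ 2 ^ n := by
  classical
  have h1 : ∑ s ∈ univ.filter (fun s => Sat s F), 2 ^ (drp F π s).card
      = ((univ.filter (fun s => Sat s F)).sigma fun s => (drp F π s).powerset).card := by
    rw [Finset.card_sigma]
    apply Finset.sum_congr rfl
    intro s _
    rw [Finset.card_powerset]
  have h2 : Fintype.card (Fin n → Bool) = 2 ^ n := by simp
  rw [h1, ← h2, ← Finset.card_univ]
  apply Finset.card_le_card_of_injOn
    (fun p => fun i => if i ∈ drp F π p.1 then decide (i ∈ p.2) else p.1 i)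
  · intro p _; simp
  · rintro ⟨s, y⟩ hp ⟨s', y'⟩ hp' heq
    simp only [coe_sigma, Set.mem_sigma_iff, coe_filter, mem_univ, true_and,
      Set.mem_ofPred_eq, coe_powerset, Set.mem_preimage, Set.mem_powerset_iff,
      Finset.coe_subset] at hp hp'
    obtain ⟨hs, hy⟩ := hp
    obtain ⟨hs', hy'⟩ := hp'
    have hz : ∀ i, (if i ∈ drp F π s then decide (i ∈ y) else s i)
        = (if i ∈ drp F π s' then decide (i ∈ y') else s' i) := fun i => congrFun heq i
    have hagree : ∀ r : ℕ, ∀ i : Fin n, (π i).val = r → s i = s' i := by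
      intro r
      induction r using Nat.strong_induction_on with
      | _ r ih =>
        intro i hi
        have hlt : ∀ j : Fin n, π j < π i → s j = s' j := by
          intro j hj
          exact ih (π j).val (by rw [← hi]; exact hj) j rfl
        have key : ∀ (u u' : Fin n → Bool), Sat u F → Sat u' F →
            (∀ j : Fin n, π j < π i → u j = u' j) → i ∈ drp F π u →
            i ∈ drp F π u' ∧ u i = u' i := by
          intro u u' hu hu' hag hmem
          simp only [drp, mem_filter, mem_univ, true_and] at hmem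
          obtain ⟨C, hC, b, hb, hall⟩ := hmem
          have hall' : ∀ l ∈ C, l ≠ (i, b) → π l.1 < π i ∧ u' l.1 ≠ l.2 := by
            intro l hl hne
            obtain ⟨h1, h2⟩ := hall l hl hne
            exact ⟨h1, by rw [← hag l.1 h1]; exact h2⟩
          refine ⟨?_, ?_⟩
          · simp only [drp, mem_filter, mem_univ, true_and]
            exact ⟨C, hC, b, hb, hall'⟩
          · rw [drp_forced hu hC (fun l hl hne => (hall l hl hne).2),
              drp_forced hu' hC (fun l hl hne => (hall' l hl hne).2)]
        by_cases hd : i ∈ drp F π s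
        · exact (key s s' hs hs' hlt hd).2
        · have hd' : i ∉ drp F π s' := by
            intro hc
            exact hd (key s' s hs' hs (fun j hj => (hlt j hj).symm) hc).1
          have := hz i
          rwa [if_neg hd, if_neg hd'] at this
    have hss : s = s' := funext fun i => hagree _ i rfl
    subst hss
    have hyy : y = y' := by
      ext i
      constructor
      · intro hi
        have hd := hy hi
        have := hz i
        rw [if_pos hd, if_pos hd] at this
        simpa [hi] using this
      · intro hi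
        have hd := hy' hi
        have := hz i
        rw [if_pos hd, if_pos hd] at this
        simpa [hi] using this
    rw [hyy]

lemma perm_max_count {n : ℕ} (B : Finset (Fin n)) (i : Fin n) (hi : i ∈ B) :
    Fintype.card (Equiv.Perm (Fin n)) ≤
      B.card * (univ.filter fun π : Equiv.Perm (Fin n) => ∀ j ∈ B, j ≠ i → π j < π i).card := by
  classical
  rw [← Finset.card_univ, ← Finset.card_product]
  have hmax : ∀ π : Equiv.Perm (Fin n), ∃ j0 ∈ B, ∀ j ∈ B, π j ≤ π j0 := by
    intro π
    obtain ⟨j0, h1, h2⟩ := Finset.exists_max_image B (fun j => π j) ⟨i, hi⟩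
    exact ⟨j0, h1, h2⟩
  choose mx hmx1 hmx2 using hmax
  apply Finset.card_le_card_of_injOn (fun π => (mx π, π * Equiv.swap i (mx π)))
  · intro π _
    simp only [coe_product, Set.mem_prod, Finset.mem_coe, mem_filter, mem_univ, true_and]
    refine ⟨hmx1 π, ?_⟩
    intro j hj hji
    simp only [Equiv.Perm.mul_apply, Equiv.swap_apply_left]
    have hne : Equiv.swap i (mx π) j ≠ mx π := by
      intro h
      apply hji
      have := congrArg (Equiv.swap i (mx π)) h
      simpa using this
    have hmem : Equiv.swap i (mx π) j ∈ B := by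
      by_cases h : j = mx π
      · rw [h, Equiv.swap_apply_right]; exact hi
      · rw [Equiv.swap_apply_of_ne_of_ne hji h]; exact hj
    exact lt_of_le_of_ne (hmx2 π _ hmem) (fun h => hne (π.injective h))
  · intro π _ σ _ heq
    simp only [Prod.mk.injEq] at heq
    obtain ⟨h1, h2⟩ := heq
    rw [h1] at h2
    exact mul_right_cancel h2

lemma drp_count {n k : ℕ} {F : CNF n} (hF : IsK k F) {s : Fin n → Bool} (hs : Sat s F)
    {i : Fin n} (hi : i ∈ isol F s) :
    Fintype.card (Equiv.Perm (Fin n)) ≤
      k * (univ.filter fun π : Equiv.Perm (Fin n) => i ∈ drp F π s).card := by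
  classical
  simp only [isol, mem_filter, mem_univ, true_and] at hi
  unfold Sat at hi
  push Not at hi
  obtain ⟨C, hC, hviol⟩ := hi
  obtain ⟨l0, hl0, hx0⟩ := hs C hC
  have hl0i : l0.1 = i := by
    by_contra hne
    apply hviol l0 hl0
    rw [flip, Function.update_of_ne hne]
    exact hx0
  have hl0eq : l0 = (i, s i) := by
    ext
    · simp [hl0i]
    · simp [← hx0, hl0i]
  have hother : ∀ l ∈ C, l ≠ (i, s i) → l.1 ≠ i ∧ s l.1 ≠ l.2 := by
    intro l hl hne
    have h1 := hviol l hl
    by_cases h : l.1 = i
    · exfalso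
      apply h1
      rw [flip, h, Function.update_self]
      have h2 : l.2 ≠ s i := fun h3 => hne (by ext <;> simp [h, h3])
      cases hh : s i <;> cases hl2 : l.2 <;> simp_all
    · refine ⟨h, ?_⟩
      rwa [flip, Function.update_of_ne h] at h1
  set B := C.image Prod.fst with hB
  have hiB : i ∈ B := by
    rw [hB, Finset.mem_image]
    exact ⟨l0, hl0, hl0i⟩
  have h1 := perm_max_count B i hiB
  refine h1.trans ?_
  apply Nat.mul_le_mul
  · exact Finset.card_image_le.trans (hF C hC)
  · apply Finset.card_le_card
    intro π hπ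
    simp only [mem_filter, mem_univ, true_and] at hπ ⊢
    simp only [drp, mem_filter, mem_univ, true_and]
    refine ⟨C, hC, s i, by rw [← hl0eq]; exact hl0, ?_⟩
    intro l hl hne
    obtain ⟨h2, h3⟩ := hother l hl hne
    exact ⟨hπ l.1 (by rw [hB]; exact Finset.mem_image_of_mem _ hl) h2, h3⟩

/-- The satisfiability coding lemma. -/
theorem ppz {n k : ℕ} (hk : 1 ≤ k) {F : CNF n} (hF : IsK k F) :
    ∑ s ∈ univ.filter (fun s => Sat s F), (2 : ℝ) ^ (((isol F s).card : ℝ) / k) ≤ 2 ^ n := by
  classical
  set Np : ℝ := (Fintype.card (Equiv.Perm (Fin n)) : ℝ) with hNp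
  have hNp0 : 0 < Np := by
    rw [hNp]
    exact_mod_cast Fintype.card_pos
  have hk0 : (0 : ℝ) < k := by exact_mod_cast hk
  have hlog : 0 < Real.log 2 := Real.log_pos (by norm_num)
  have hJ : ∀ s ∈ univ.filter (fun s => Sat s F),
      (2 : ℝ) ^ (((isol F s).card : ℝ) / k) * Np ≤
        ∑ π : Equiv.Perm (Fin n), (2 : ℝ) ^ (drp F π s).card := by
    intro s hs
    simp only [mem_filter, mem_univ, true_and] at hs
    set t : ℝ := ((isol F s).card : ℝ) / k
    have htan : ∀ x : ℝ, (2 : ℝ) ^ t * (1 + (x - t) * Real.log 2) ≤ (2 : ℝ) ^ x := by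
      intro x
      have h1 : (2 : ℝ) ^ x = 2 ^ t * 2 ^ (x - t) := by
        rw [← Real.rpow_add (by norm_num)]
        congr 1; ring
      rw [h1]
      apply mul_le_mul_of_nonneg_left _ (by positivity)
      have h2 := Real.add_one_le_exp ((x - t) * Real.log 2)
      have h3 : (2 : ℝ) ^ (x - t) = Real.exp ((x - t) * Real.log 2) := by
        rw [Real.rpow_def_of_pos (by norm_num), mul_comm]
      rw [h3]
      linarith
    have hsumcard : Np * t ≤ ∑ π : Equiv.Perm (Fin n), ((drp F π s).card : ℝ) := by
      have e1 : ∑ π : Equiv.Perm (Fin n), ((drp F π s).card : ℝ)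
          = ∑ i : Fin n, ((univ.filter fun π : Equiv.Perm (Fin n) => i ∈ drp F π s).card : ℝ) := by
        have e2 : ∀ π : Equiv.Perm (Fin n), ((drp F π s).card : ℝ)
            = ∑ i : Fin n, (if i ∈ drp F π s then (1 : ℝ) else 0) := by
          intro π
          rw [Finset.sum_boole]
          congr 2
          ext i; simp
        simp_rw [e2]
        rw [Finset.sum_comm]
        apply Finset.sum_congr rfl
        intro i _
        rw [Finset.sum_boole]
      rw [e1]
      calc Np * t = ∑ _i ∈ isol F s, Np / k := by
            rw [Finset.sum_const, nsmul_eq_mul]; ring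
        _ ≤ ∑ i ∈ isol F s,
            ((univ.filter fun π : Equiv.Perm (Fin n) => i ∈ drp F π s).card : ℝ) := by
            apply Finset.sum_le_sum
            intro i hi
            have h := drp_count hF hs hi
            rw [div_le_iff₀ hk0, hNp]
            have h' : ((Fintype.card (Equiv.Perm (Fin n)) : ℕ) : ℝ) ≤
                ((k * (univ.filter fun π : Equiv.Perm (Fin n) => i ∈ drp F π s).card : ℕ) : ℝ) :=
              by exact_mod_cast h
            push_cast at h'
            linarith
        _ ≤ _ := by
            apply Finset.sum_le_sum_of_subset_of_nonneg (Finset.subset_univ _)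
            intro i _ _
            positivity
    calc (2 : ℝ) ^ t * Np ≤ (2 : ℝ) ^ t *
          (Np + (∑ π : Equiv.Perm (Fin n), ((drp F π s).card : ℝ) - Np * t) * Real.log 2) := by
          apply mul_le_mul_of_nonneg_left _ (by positivity)
          have : 0 ≤ (∑ π : Equiv.Perm (Fin n), ((drp F π s).card : ℝ) - Np * t) * Real.log 2 :=
            mul_nonneg (by linarith) hlog.le
          linarith
      _ = ∑ π : Equiv.Perm (Fin n),
          (2 : ℝ) ^ t * (1 + (((drp F π s).card : ℝ) - t) * Real.log 2) := by
          rw [← Finset.mul_sum]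
          congr 1
          rw [Finset.sum_add_distrib, ← Finset.sum_mul, Finset.sum_sub_distrib]
          simp only [Finset.sum_const, Finset.card_univ, nsmul_eq_mul, mul_one]
          rw [hNp]
      _ ≤ _ := by
          apply Finset.sum_le_sum
          intro π _
          have := htan ((drp F π s).card : ℝ)
          rwa [Real.rpow_natCast] at this
  have hsum := Finset.sum_le_sum hJ
  rw [← Finset.sum_mul, Finset.sum_comm] at hsum
  have h2 : ∑ π : Equiv.Perm (Fin n), ∑ s ∈ univ.filter (fun s => Sat s F),
      (2 : ℝ) ^ (drp F π s).card ≤ ∑ _π : Equiv.Perm (Fin n), (2 : ℝ) ^ n := by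
    apply Finset.sum_le_sum
    intro π _
    have := sum_two_pow_drp_le F π
    exact_mod_cast this
  rw [Finset.sum_const, Finset.card_univ, nsmul_eq_mul, ← hNp] at h2
  have h3 := hsum.trans h2
  rw [mul_comm Np] at h3
  exact le_of_mul_le_mul_right h3 hNp0

end Pool.Agent.Helper38.ISO
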