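import Mathlib
import Pool.Agent.Helper38.ISO.Ppz

/-!
# The barrier: random subcubes are isolated with exponentially small probability
-/

set_option autoImplicit false

namespace Pool.Agent.Helper38.ISO

open Finset

/-- The subcube of the assignments which agree with `a` outside `M`. -/
def cube {n : ℕ} (M : Finset (Fin n)) (a : Fin n → Bool) : Set (Fin n → Bool) :=
  {x | ∀ i, i ∉ M → x i = a i}

lemma descFactorial_le (n I : ℕ) (h : I ≤ n) (D : ℕ) :
    I.descFactorial D * n ^ D ≤ n.descFactorial D * I ^ D := by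
  induction D with
  | zero => simp
  | succ k ih =>
    rw [Nat.descFactorial_succ, Nat.descFactorial_succ, pow_succ, pow_succ]
    have h1 : (I - k) * n ≤ (n - k) * I := by
      rcases le_or_gt k I with hk | hk
      · obtain ⟨j, rfl⟩ := Nat.exists_eq_add_of_le hk
        obtain ⟨r, rfl⟩ := Nat.exists_eq_add_of_le h
        have e1 : k + j - k = j := by omega
        have e2 : k + j + r - k = j + r := by omega
        rw [e1, e2]
        nlinarith
      · have : I - k = 0 := by omega
        rw [this]; simp
    calc (I - k) * I.descFactorial k * (n ^ k * n)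
        = ((I - k) * n) * (I.descFactorial k * n ^ k) := by ring
      _ ≤ ((n - k) * I) * (n.descFactorial k * I ^ k) := Nat.mul_le_mul h1 ih
      _ = _ := by ring

lemma choose_le_real {n I : ℕ} (hn : 0 < n) (h : I ≤ n) (D : ℕ) :
    (I.choose D : ℝ) ≤ (n.choose D : ℝ) * ((I : ℝ) / n) ^ D := by
  have h1 := descFactorial_le n I h D
  rw [Nat.descFactorial_eq_factorial_mul_choose, Nat.descFactorial_eq_factorial_mul_choose] at h1
  have h2 : ((D.factorial * I.choose D * n ^ D : ℕ) : ℝ) ≤
      ((D.factorial * n.choose D * I ^ D : ℕ) : ℝ) := by exact_mod_cast h1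
  push_cast at h2
  have hn0 : (0 : ℝ) < n := by exact_mod_cast hn
  have hf : (0 : ℝ) < D.factorial := by exact_mod_cast Nat.factorial_pos D
  rw [div_pow, ← mul_div_assoc, le_div_iff₀ (by positivity)]
  have h3 : (D.factorial : ℝ) * ((I.choose D : ℝ) * (n : ℝ) ^ D) ≤
      (D.factorial : ℝ) * ((n.choose D : ℝ) * (I : ℝ) ^ D) := by
    calc _ = (D.factorial : ℝ) * (I.choose D : ℝ) * (n : ℝ) ^ D := by ring
      _ ≤ _ := h2
      _ = _ := by ring
  exact le_of_mul_le_mul_left h3 hf

lemma pow_le_exp (D : ℕ) (x : ℝ) (hx : 0 ≤ x) :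
    x ^ D ≤ (D : ℝ) ^ D * Real.exp (x - D) := by
  rcases Nat.eq_zero_or_pos D with h | h
  · subst h
    simp only [pow_zero, Nat.cast_zero, sub_zero, one_mul]
    exact Real.one_le_exp hx
  · have hD : (0 : ℝ) < D := by exact_mod_cast h
    have h1 : x / D ≤ Real.exp (x / D - 1) := by
      have := Real.add_one_le_exp (x / D - 1)
      linarith
    have h2 := pow_le_pow_left₀ (by positivity) h1 D
    rw [← Real.exp_nat_mul, div_pow, div_le_iff₀ (by positivity)] at h2
    have h3 : (D : ℝ) * (x / D - 1) = x - D := by field_simp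
    rw [h3] at h2
    linarith

lemma key_ineq {n k D I : ℕ} (hn : 0 < n) (hk : 1 ≤ k) (hI : I ≤ n)
    (hD : 2 * (D : ℝ) * k ≤ n * Real.log 2) :
    (2 : ℝ) ^ D * (I.choose D : ℝ) ≤
      Real.exp (-D) * (n.choose D : ℝ) * (2 : ℝ) ^ ((I : ℝ) / k) := by
  have hn0 : (0 : ℝ) < n := by exact_mod_cast hn
  have hk0 : (0 : ℝ) < k := by exact_mod_cast hk
  have hlog : 0 < Real.log 2 := Real.log_pos (by norm_num)
  set x : ℝ := (I : ℝ) / k * Real.log 2 with hx
  have hx0 : 0 ≤ x := by positivity
  have h1 := pow_le_exp D x hx0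
  have h2 : (2 : ℝ) ^ ((I : ℝ) / k) = Real.exp x := by
    rw [Real.rpow_def_of_pos (by norm_num), hx, mul_comm]
  have h3 := choose_le_real hn hI D
  have h4 : (I : ℝ) / n = x * (k / (n * Real.log 2)) := by
    rw [hx]; field_simp
  rw [h2]
  calc (2 : ℝ) ^ D * (I.choose D : ℝ)
      ≤ 2 ^ D * ((n.choose D : ℝ) * ((I : ℝ) / n) ^ D) := by
        apply mul_le_mul_of_nonneg_left h3 (by positivity)
    _ = (n.choose D : ℝ) * (2 * (k / (n * Real.log 2))) ^ D * x ^ D := by
        rw [h4, mul_pow, mul_pow]; ring
    _ ≤ (n.choose D : ℝ) * (2 * (k / (n * Real.log 2))) ^ D *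
          ((D : ℝ) ^ D * Real.exp (x - D)) := by
        apply mul_le_mul_of_nonneg_left h1 (by positivity)
    _ = (n.choose D : ℝ) * (2 * D * k / (n * Real.log 2)) ^ D * Real.exp (x - D) := by
        have : (2 * (D : ℝ) * k / (n * Real.log 2)) = (2 * (k / (n * Real.log 2))) * D := by ring
        rw [this, mul_pow]; ring
    _ ≤ (n.choose D : ℝ) * 1 * Real.exp (x - D) := by
        apply mul_le_mul_of_nonneg_right _ (Real.exp_pos _).le
        apply mul_le_mul_of_nonneg_left _ (by positivity)
        apply pow_le_one₀ (by positivity)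
        rw [div_le_one (by positivity)]
        exact hD
    _ = Real.exp (-D) * (n.choose D : ℝ) * Real.exp x := by
        rw [sub_eq_add_neg, Real.exp_add]; ring

open Classical in
/-- For a fixed `M`: the subcubes in direction `M` isolated by `F`. -/
lemma iso_count {n D : ℕ} (F : CNF n) (M : Finset (Fin n)) (hM : M.card = D) :
    (univ.filter fun a : Fin n → Bool => Isolates F (cube M a)).card ≤
      2 ^ D * (univ.filter fun s : Fin n → Bool => Sat s F ∧ M ⊆ isol F s).card := by
  have hpow : 2 ^ D = M.powerset.card := by rw [Finset.card_powerset, hM]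
  rw [hpow, ← Finset.card_product]
  have hex : ∀ a : Fin n → Bool, ∃ s : Fin n → Bool, Isolates F (cube M a) →
      (s ∈ cube M a ∧ Sat s F ∧ M ⊆ isol F s) := by
    intro a
    by_cases h : Isolates F (cube M a)
    · obtain ⟨s, ⟨h1, h2⟩, h3⟩ := h
      refine ⟨s, fun _ => ⟨h1, h2, ?_⟩⟩
      intro i hi
      simp only [isol, mem_filter, mem_univ, true_and]
      intro hsat
      have hmem : flip s i ∈ cube M a := by
        intro j hj
        have hji : j ≠ i := fun hh => hj (hh ▸ hi)
        rw [flip, Function.update_of_ne hji]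
        exact h1 j hj
      have := congrFun (h3 _ ⟨hmem, hsat⟩) i
      rw [flip, Function.update_self] at this
      cases hh : s i <;> simp [hh] at this
    · exact ⟨a, fun h' => absurd h' h⟩
  choose s hs using hex
  apply Finset.card_le_card_of_injOn (fun a => (M.filter (fun i => a i = true), s a))
  · intro a ha
    simp only [coe_filter, mem_univ, true_and, Set.mem_ofPred_eq] at ha
    simp only [coe_product, Set.mem_prod, Finset.mem_coe, Finset.mem_powerset,
      Finset.mem_filter, mem_univ, true_and]
    exact ⟨Finset.filter_subset _ _, (hs a ha).2⟩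
  · intro a ha a' ha' heq
    simp only [coe_filter, mem_univ, true_and, Set.mem_ofPred_eq] at ha ha'
    simp only [Prod.mk.injEq] at heq
    obtain ⟨h1, h2⟩ := heq
    funext i
    by_cases hi : i ∈ M
    · have h3 : i ∈ M.filter (fun i => a i = true) ↔ i ∈ M.filter (fun i => a' i = true) := by
        rw [h1]
      simp only [Finset.mem_filter, hi, true_and] at h3
      cases h4 : a i <;> cases h5 : a' i <;> simp_all
    · have h3 := (hs a ha).1 i hi
      have h4 := (hs a' ha').1 i hi
      rw [← h3, ← h4, h2]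

open Classical in
lemma total_count {n k D : ℕ} (hn : 0 < n) (hk : 1 ≤ k)
    (hD : 2 * (D : ℝ) * k ≤ n * Real.log 2) (F : CNF n) (hF : IsK k F) :
    ∑ M ∈ powersetCard D (univ : Finset (Fin n)),
      ((univ.filter fun a : Fin n → Bool => Isolates F (cube M a)).card : ℝ)
      ≤ Real.exp (-D) * (n.choose D : ℝ) * 2 ^ n := by
  calc ∑ M ∈ powersetCard D (univ : Finset (Fin n)),
      ((univ.filter fun a : Fin n → Bool => Isolates F (cube M a)).card : ℝ)
      ≤ ∑ M ∈ powersetCard D (univ : Finset (Fin n)), (2 : ℝ) ^ D *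
        ((univ.filter fun s : Fin n → Bool => Sat s F ∧ M ⊆ isol F s).card : ℝ) := by
        apply Finset.sum_le_sum
        intro M hM
        have := iso_count F M (Finset.mem_powersetCard.mp hM).2
        exact_mod_cast this
    _ = (2 : ℝ) ^ D * ∑ M ∈ powersetCard D (univ : Finset (Fin n)),
        ∑ s ∈ univ.filter (fun s => Sat s F), (if M ⊆ isol F s then (1 : ℝ) else 0) := by
        rw [Finset.mul_sum]
        apply Finset.sum_congr rfl
        intro M _
        rw [Finset.sum_boole, Finset.filter_filter]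
    _ = (2 : ℝ) ^ D * ∑ s ∈ univ.filter (fun s => Sat s F), ((isol F s).card.choose D : ℝ) := by
        rw [Finset.sum_comm]
        congr 1
        apply Finset.sum_congr rfl
        intro s _
        rw [Finset.sum_boole, ← Finset.card_powersetCard]
        congr 2
        ext M
        simp only [mem_filter, mem_powersetCard, subset_univ, true_and]
        tauto
    _ = ∑ s ∈ univ.filter (fun s => Sat s F), (2 : ℝ) ^ D * ((isol F s).card.choose D : ℝ) := by
        rw [Finset.mul_sum]
    _ ≤ ∑ s ∈ univ.filter (fun s => Sat s F), Real.exp (-D) * (n.choose D : ℝ) *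
        (2 : ℝ) ^ (((isol F s).card : ℝ) / k) := by
        apply Finset.sum_le_sum
        intro s _
        apply key_ineq hn hk _ hD
        have := Finset.card_le_univ (isol F s)
        simpa using this
    _ = Real.exp (-D) * (n.choose D : ℝ) * ∑ s ∈ univ.filter (fun s => Sat s F),
        (2 : ℝ) ^ (((isol F s).card : ℝ) / k) := by rw [Finset.mul_sum]
    _ ≤ _ := by
        apply mul_le_mul_of_nonneg_left (ppz hk hF) (by positivity)

open Classical in
/-- **Barrier.** -/
theorem barrier {n k D : ℕ} (hk : 1 ≤ k) (hD : 2 * (D : ℝ) * k ≤ n * Real.log 2)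
    {ι : Type} [Fintype ι] (w : ι → ℝ) (G : ι → CNF n) (hw : ∀ i, 0 ≤ w i)
    (hw1 : ∑ i, w i = 1) (hG : ∀ i, IsK k (G i)) :
    ∃ M : Finset (Fin n), M.card = D ∧ ∃ a : Fin n → Bool,
      ∑ i ∈ univ.filter (fun i => Isolates (G i) (cube M a)), w i ≤ Real.exp (-D) := by
  rcases Nat.eq_zero_or_pos D with h0 | hDpos
  · subst h0
    refine ⟨∅, rfl, fun _ => false, ?_⟩
    simp only [Nat.cast_zero, neg_zero, Real.exp_zero]
    rw [← hw1]
    exact Finset.sum_le_sum_of_subset_of_nonneg (Finset.filter_subset _ _) fun i _ _ => hw i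
  have hk0 : (1 : ℝ) ≤ k := by exact_mod_cast hk
  have hDr : (1 : ℝ) ≤ D := by exact_mod_cast hDpos
  have hlog1 : Real.log 2 ≤ 1 := by
    have := Real.log_two_lt_d9
    linarith
  have hn0 : (D : ℝ) ≤ n := by nlinarith [Real.log_pos (by norm_num : (1 : ℝ) < 2)]
  have hDn : D ≤ n := by exact_mod_cast hn0
  have hn : 0 < n := by omega
  set pr : Finset (Finset (Fin n) × (Fin n → Bool)) :=
    powersetCard D (univ : Finset (Fin n)) ×ˢ univ with hpr
  have hprne : pr.Nonempty := by
    rw [hpr, Finset.nonempty_product]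
    refine ⟨?_, ⟨fun _ => false, mem_univ _⟩⟩
    rw [Finset.powersetCard_nonempty]
    simpa using hDn
  have hsum : ∑ p ∈ pr, ∑ i ∈ univ.filter (fun i => Isolates (G i) (cube p.1 p.2)), w i
      ≤ ∑ _p ∈ pr, Real.exp (-D) := by
    have hcard : (pr.card : ℝ) = (n.choose D : ℝ) * 2 ^ n := by
      rw [hpr, Finset.card_product, Finset.card_powersetCard]
      simp
    rw [Finset.sum_const, nsmul_eq_mul, hcard]
    calc ∑ p ∈ pr, ∑ i ∈ univ.filter (fun i => Isolates (G i) (cube p.1 p.2)), w i
        = ∑ p ∈ pr, ∑ i, w i * (if Isolates (G i) (cube p.1 p.2) then (1 : ℝ) else 0) := by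
          apply Finset.sum_congr rfl
          intro p _
          rw [Finset.sum_filter]
          apply Finset.sum_congr rfl
          intro i _
          split_ifs <;> simp
      _ = ∑ i, w i * ∑ p ∈ pr, (if Isolates (G i) (cube p.1 p.2) then (1 : ℝ) else 0) := by
          rw [Finset.sum_comm]
          apply Finset.sum_congr rfl
          intro i _
          rw [Finset.mul_sum]
      _ ≤ ∑ i, w i * (Real.exp (-D) * (n.choose D : ℝ) * 2 ^ n) := by
          apply Finset.sum_le_sum
          intro i _
          apply mul_le_mul_of_nonneg_left _ (hw i)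
          refine le_trans (le_of_eq ?_) (total_count hn hk hD (G i) (hG i))
          rw [hpr, Finset.sum_product]
          apply Finset.sum_congr rfl
          intro M _
          rw [Finset.sum_boole]
      _ = (n.choose D : ℝ) * 2 ^ n * Real.exp (-D) := by
          rw [← Finset.sum_mul, hw1]; ring
  obtain ⟨p, hp, hle⟩ := Finset.exists_le_of_sum_le hprne hsum
  rw [hpr, Finset.mem_product, Finset.mem_powersetCard] at hp
  exact ⟨p.1, hp.1.2, p.2, hle⟩

end Pool.Agent.Helper38.ISO
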