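import Mathlib

/-!
# Weights of the vectors of a binary subspace
-/

set_option autoImplicit false

namespace Pool.Agent.Helper38.ISO

open Finset

/-- Hamming weight. -/
def wt {n : ℕ} (x : Fin n → ZMod 2) : ℕ := (univ.filter fun i => x i ≠ 0).card

lemma exists_info {n : ℕ} (W : Submodule (ZMod 2) (Fin n → ZMod 2)) :
    ∃ (κ : Type) (_ : Fintype κ) (a : κ → Fin n), Function.Injective a ∧
      Fintype.card κ ≤ Module.finrank (ZMod 2) W ∧
      ∀ x ∈ W, (∀ j, x (a j) = 0) → x = 0 := by
  classical
  let v : Fin n → Module.Dual (ZMod 2) W := fun i => (LinearMap.proj i).comp W.subtype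
  obtain ⟨κ, a, ha, hspan, hli⟩ := exists_linearIndependent' (ZMod 2) v
  have hfin : Finite κ := Finite.of_injective a ha
  let _ : Fintype κ := Fintype.ofFinite κ
  refine ⟨κ, inferInstance, a, ha, ?_, ?_⟩
  · have h := hli.fintype_card_le_finrank
    rwa [Subspace.dual_finrank_eq] at h
  · intro x hx h0
    let e : Module.Dual (ZMod 2) W →ₗ[ZMod 2] ZMod 2 := Module.Dual.eval (ZMod 2) W ⟨x, hx⟩
    have h1 : Submodule.span (ZMod 2) (Set.range (v ∘ a)) ≤ LinearMap.ker e := by
      rw [Submodule.span_le]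
      rintro _ ⟨j, rfl⟩
      simp only [SetLike.mem_coe, LinearMap.mem_ker]
      exact h0 j
    funext i
    have h2 : v i ∈ Submodule.span (ZMod 2) (Set.range (v ∘ a)) := by
      rw [hspan]
      exact Submodule.subset_span ⟨i, rfl⟩
    have h3 := h1 h2
    simp only [LinearMap.mem_ker] at h3
    exact h3

lemma sum_pow_wt_le {n : ℕ} (W : Submodule (ZMod 2) (Fin n → ZMod 2)) [DecidablePred (· ∈ W)]
    (z : ℝ) (hz0 : 0 ≤ z) (hz1 : z ≤ 1) :
    ∑ x ∈ univ.filter (· ∈ W), z ^ wt x ≤ (1 + z) ^ Module.finrank (ZMod 2) W := by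
  classical
  obtain ⟨κ, hκ, a, ha, hcard, hinj⟩ := exists_info W
  let _ := hκ
  let g : ZMod 2 → ℝ := fun c => if c = 0 then 1 else z
  have hg0 : ∀ c, 0 ≤ g c := by
    intro c
    simp only [g]
    split_ifs
    · exact zero_le_one
    · exact hz0
  calc ∑ x ∈ univ.filter (· ∈ W), z ^ wt x
      ≤ ∑ x ∈ univ.filter (· ∈ W), ∏ j, g (x (a j)) := by
        apply Finset.sum_le_sum
        intro x _
        have e1 : ∏ j, g (x (a j)) = z ^ (univ.filter fun j => x (a j) ≠ 0).card := by
          simp only [g]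
          rw [Finset.prod_ite]
          simp
        rw [e1]
        apply pow_le_pow_of_le_one hz0 hz1
        unfold wt
        apply Finset.card_le_card_of_injOn a
        · intro j hj
          simpa using hj
        · exact ha.injOn
    _ ≤ ∑ y : κ → ZMod 2, ∏ j, g (y j) := by
        rw [← Finset.sum_image (s := univ.filter (· ∈ W)) (g := fun x => fun j => x (a j))
          (f := fun y : κ → ZMod 2 => ∏ j, g (y j))]
        · apply Finset.sum_le_sum_of_subset_of_nonneg (Finset.subset_univ _)
          intro y _ _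
          exact Finset.prod_nonneg fun j _ => hg0 _
        · intro x hx y hy hxy
          simp only [coe_filter, mem_univ, true_and, Set.mem_ofPred_eq] at hx hy
          have h := hinj (x - y) (W.sub_mem hx hy) (fun j => by
            have := congrFun hxy j
            simp only at this
            simp [this])
          exact sub_eq_zero.mp h
    _ = ∏ _j : κ, ∑ c : ZMod 2, g c := by
        rw [Finset.prod_univ_sum]
        simp
    _ = (1 + z) ^ Fintype.card κ := by
        have : ∑ c : ZMod 2, g c = 1 + z := by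
          have e : (univ : Finset (ZMod 2)) = {0, 1} := by decide
          rw [e, Finset.sum_insert (by decide), Finset.sum_singleton]
          simp [g]
        rw [Finset.prod_const, this]
        rfl
    _ ≤ (1 + z) ^ Module.finrank (ZMod 2) W := by
        apply pow_le_pow_right₀ _ hcard
        linarith

/-- The sign character of `ZMod 2`. -/
def sgn (c : ZMod 2) : ℝ := if c = 0 then 1 else -1

lemma sgn_zero : sgn 0 = 1 := by simp [sgn]

lemma zmod2_cases (a : ZMod 2) : a = 0 ∨ a = 1 := by
  revert a; decide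

lemma sgn_add (a b : ZMod 2) : sgn (a + b) = sgn a * sgn b := by
  have h2 : (1 : ZMod 2) + 1 = 0 := by decide
  have h1 : (1 : ZMod 2) ≠ 0 := by decide
  rcases zmod2_cases a with rfl | rfl <;> rcases zmod2_cases b with rfl | rfl <;>
    simp [sgn, h2, h1]

lemma sgn_sum {ι : Type*} (s : Finset ι) (f : ι → ZMod 2) :
    sgn (∑ i ∈ s, f i) = ∏ i ∈ s, sgn (f i) := by
  classical
  induction s using Finset.induction_on with
  | empty => simp [sgn_zero]
  | insert a s ha ih => rw [Finset.sum_insert ha, Finset.prod_insert ha, sgn_add, ih]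

lemma sum_sgn {n : ℕ} (x : Fin n → ZMod 2) : ∑ i, sgn (x i) = (n : ℝ) - 2 * wt x := by
  classical
  have h1 : ∀ i, sgn (x i) = 1 - 2 * (if x i ≠ 0 then (1 : ℝ) else 0) := by
    intro i
    by_cases h : x i = 0
    · simp [sgn, h]
    · simp [sgn, h]; norm_num
  simp_rw [h1]
  rw [Finset.sum_sub_distrib, ← Finset.mul_sum, Finset.sum_boole]
  simp [wt]

/-- The parity functional of a list of `m` coordinates. -/
def ell {n m : ℕ} (i : Fin m → Fin n) (x : Fin n → ZMod 2) : ZMod 2 := ∑ j, x (i j)

lemma ell_add {n m : ℕ} (i : Fin m → Fin n) (x y : Fin n → ZMod 2) :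
    ell i (x + y) = ell i x + ell i y := by
  simp [ell, Finset.sum_add_distrib]

lemma ell_sub {n m : ℕ} (i : Fin m → Fin n) (x y : Fin n → ZMod 2) :
    ell i (x - y) = ell i x - ell i y := by
  simp [ell, Finset.sum_sub_distrib]

/-- `ell` as a linear map. -/
def ellL {n m : ℕ} (i : Fin m → Fin n) : (Fin n → ZMod 2) →ₗ[ZMod 2] ZMod 2 where
  toFun := ell i
  map_add' := ell_add i
  map_smul' := by
    intro c x
    simp [ell, Finset.mul_sum]

lemma sum_sgn_ell_nonneg {n m : ℕ} (W : Submodule (ZMod 2) (Fin n → ZMod 2))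
    [DecidablePred (· ∈ W)] (i : Fin m → Fin n) :
    (if (∀ x ∈ W, ell i x = 0) then ((univ.filter (· ∈ W)).card : ℝ) else 0) ≤
      ∑ x ∈ univ.filter (· ∈ W), sgn (ell i x) := by
  classical
  split_ifs with h
  · rw [Finset.sum_congr rfl (g := fun _ => (1 : ℝ))]
    · simp
    · intro x hx
      rw [h x (by simpa using hx), sgn_zero]
  · push Not at h
    obtain ⟨w, hw, hw1⟩ := h
    have hw2 : ell i w = 1 := by
      rcases zmod2_cases (ell i w) with h0 | h0
      · exact absurd h0 hw1
      · exact h0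
    have hs : sgn (ell i w) = -1 := by
      rw [hw2]
      have h1 : (1 : ZMod 2) ≠ 0 := by decide
      simp [sgn, h1]
    have key : ∑ x ∈ univ.filter (· ∈ W), sgn (ell i x)
        = ∑ x ∈ univ.filter (· ∈ W), sgn (ell i (x + w)) := by
      apply Finset.sum_bij' (fun x _ => x - w) (fun x _ => x + w)
      · intro x hx
        simp only [mem_filter, mem_univ, true_and] at hx ⊢
        exact W.sub_mem hx hw
      · intro x hx
        simp only [mem_filter, mem_univ, true_and] at hx ⊢
        exact W.add_mem hx hw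
      · intro x _; simp
      · intro x _; simp
      · intro x _; simp
    have key2 : ∑ x ∈ univ.filter (· ∈ W), sgn (ell i (x + w))
        = - ∑ x ∈ univ.filter (· ∈ W), sgn (ell i x) := by
      rw [← Finset.sum_neg_distrib]
      apply Finset.sum_congr rfl
      intro x _
      rw [ell_add, sgn_add, hs]
      ring
    linarith

/-- The number of parity functionals vanishing on a subspace. -/
lemma card_vanish_le {n m : ℕ} (hn : 1 ≤ n) (hm : Odd m)
    (W : Submodule (ZMod 2) (Fin n → ZMod 2)) [DecidablePred (· ∈ W)] :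
    ((univ.filter fun i : Fin m → Fin n => ∀ x ∈ W, ell i x = 0).card : ℝ) ≤
      (n : ℝ) ^ m * ((1 + Real.exp (-(2 * m / n))) / 2) ^ Module.finrank (ZMod 2) W := by
  classical
  set D := Module.finrank (ZMod 2) W
  set z := Real.exp (-(2 * m / n : ℝ))
  have hn0 : (0 : ℝ) < n := by exact_mod_cast hn
  have hz0 : 0 ≤ z := (Real.exp_pos _).le
  have hz1 : z ≤ 1 := by
    apply Real.exp_le_one_iff.mpr
    have : (0 : ℝ) ≤ 2 * m / n := by positivity
    linarith
  have hcardW : ((univ.filter (· ∈ W)).card : ℝ) = 2 ^ D := by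
    have h1 : (univ.filter (· ∈ W)).card = Nat.card W := by
      rw [Nat.card_eq_fintype_card, Fintype.card_subtype]
    have h2 : Nat.card W = 2 ^ D := by
      have := Module.natCard_eq_pow_finrank (K := ZMod 2) (V := W)
      rw [this]
      simp [D]
    rw [h1, h2]
    push_cast
    rfl
  have hpos : (0 : ℝ) < 2 ^ D := by positivity
  have h1 : ((univ.filter fun i : Fin m → Fin n => ∀ x ∈ W, ell i x = 0).card : ℝ) * 2 ^ D
      ≤ ∑ x ∈ univ.filter (· ∈ W), ((n : ℝ) - 2 * wt x) ^ m := by
    calc ((univ.filter fun i : Fin m → Fin n => ∀ x ∈ W, ell i x = 0).card : ℝ) * 2 ^ D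
        = ∑ i : Fin m → Fin n, (if (∀ x ∈ W, ell i x = 0) then
            ((univ.filter (· ∈ W)).card : ℝ) else 0) := by
          rw [← Finset.sum_filter, Finset.sum_const, nsmul_eq_mul, hcardW]
      _ ≤ ∑ i : Fin m → Fin n, ∑ x ∈ univ.filter (· ∈ W), sgn (ell i x) :=
          Finset.sum_le_sum fun i _ => sum_sgn_ell_nonneg W i
      _ = ∑ x ∈ univ.filter (· ∈ W), ∑ i : Fin m → Fin n, sgn (ell i x) := Finset.sum_comm
      _ = ∑ x ∈ univ.filter (· ∈ W), ((n : ℝ) - 2 * wt x) ^ m := by
          apply Finset.sum_congr rfl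
          intro x _
          rw [← sum_sgn x]
          have e : (∑ i : Fin n, sgn (x i)) ^ m = ∏ _j : Fin m, ∑ i : Fin n, sgn (x i) := by
            simp
          rw [e, Finset.prod_univ_sum]
          simp only [Fintype.piFinset_univ]
          apply Finset.sum_congr rfl
          intro i _
          rw [ell, sgn_sum]
  have h2 : ∀ x : Fin n → ZMod 2, ((n : ℝ) - 2 * wt x) ^ m ≤ (n : ℝ) ^ m * z ^ wt x := by
    intro x
    have e1 : ((n : ℝ) - 2 * wt x) ≤ n * Real.exp (-(2 * wt x / n)) := by
      have h := Real.add_one_le_exp (-(2 * wt x / n : ℝ))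
      calc ((n : ℝ) - 2 * wt x) = n * (-(2 * wt x / n : ℝ) + 1) := by field_simp; ring
        _ ≤ _ := by apply mul_le_mul_of_nonneg_left h hn0.le
    have e2 : ((n : ℝ) - 2 * wt x) ^ m ≤ (n * Real.exp (-(2 * wt x / n))) ^ m := by
      exact hm.strictMono_pow.monotone e1
    refine e2.trans (le_of_eq ?_)
    rw [mul_pow, ← Real.exp_nat_mul, ← Real.exp_nat_mul]
    congr 2
    ring
  have h3 : ∑ x ∈ univ.filter (· ∈ W), ((n : ℝ) - 2 * wt x) ^ m
      ≤ (n : ℝ) ^ m * (1 + z) ^ D := by
    calc _ ≤ ∑ x ∈ univ.filter (· ∈ W), (n : ℝ) ^ m * z ^ wt x :=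
          Finset.sum_le_sum fun x _ => h2 x
      _ = (n : ℝ) ^ m * ∑ x ∈ univ.filter (· ∈ W), z ^ wt x := by rw [Finset.mul_sum]
      _ ≤ _ := by
          apply mul_le_mul_of_nonneg_left (sum_pow_wt_le W z hz0 hz1)
          positivity
  have h4 := h1.trans h3
  rw [div_pow, ← mul_div_assoc, le_div_iff₀ hpos]
  exact h4

end Pool.Agent.Helper38.ISO
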