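import Mathlib
import Pool.Agent.Helper38.ISO.Wt

/-!
# The isolation recursion
-/

set_option autoImplicit false

namespace Pool.Agent.Helper38.ISO

open Finset

/-- A parity constraint on `n` variables: `m` coordinates and a right hand side. -/
abbrev Par (n m : ℕ) := (Fin m → Fin n) × ZMod 2

/-- The vector satisfies the parity constraint. -/
def psat {n m : ℕ} (c : Par n m) (x : Fin n → ZMod 2) : Prop := ell c.1 x = c.2

instance {n m : ℕ} (c : Par n m) (x : Fin n → ZMod 2) : Decidable (psat c x) := by
  unfold psat; infer_instance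

/-- The span of the differences. -/
def dir {n : ℕ} (S : Finset (Fin n → ZMod 2)) : Submodule (ZMod 2) (Fin n → ZMod 2) :=
  Submodule.span (ZMod 2) {v | ∃ x ∈ S, ∃ y ∈ S, v = x - y}

/-- Its dimension. -/
noncomputable def dm {n : ℕ} (S : Finset (Fin n → ZMod 2)) : ℕ :=
  Module.finrank (ZMod 2) (dir S)

/-- Probability that `T` random parity constraints leave exactly one vector of `S`. -/
noncomputable def P (n m : ℕ) : ℕ → Finset (Fin n → ZMod 2) → ℝ
  | 0, S => if S.card = 1 then 1 else 0
  | T + 1, S => (∑ c : Par n m, P n m T (S.filter (psat c))) / Fintype.card (Par n m)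

lemma P_nonneg (n m : ℕ) : ∀ (T : ℕ) (S : Finset (Fin n → ZMod 2)), 0 ≤ P n m T S
  | 0, S => by
      simp only [P]
      split_ifs
      · exact zero_le_one
      · exact le_refl 0
  | T + 1, S => by
      simp only [P]
      exact div_nonneg (Finset.sum_nonneg fun c _ => P_nonneg n m T _) (Nat.cast_nonneg _)

lemma card_one_of_dm_zero {n : ℕ} (S : Finset (Fin n → ZMod 2)) (hS : S.Nonempty)
    (h : dm S = 0) : S.card = 1 := by
  have h1 : dir S = ⊥ := by
    unfold dm at h
    exact Submodule.finrank_eq_zero.mp h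
  obtain ⟨x, hx⟩ := hS
  rw [Finset.card_eq_one]
  refine ⟨x, ?_⟩
  ext y
  rw [Finset.mem_singleton]
  constructor
  · intro hy
    have : y - x ∈ dir S := Submodule.subset_span ⟨y, hy, x, hx, rfl⟩
    rw [h1, Submodule.mem_bot] at this
    exact sub_eq_zero.mp this
  · rintro rfl
    exact hx

lemma dm_le {n : ℕ} (S : Finset (Fin n → ZMod 2)) : dm S ≤ n := by
  unfold dm
  have := Submodule.finrank_le (dir S)
  simpa using this

lemma dm_filter_lt {n m : ℕ} (S : Finset (Fin n → ZMod 2)) (c : Par n m)
    (h : ¬ ∀ x ∈ dir S, ell c.1 x = 0) : dm (S.filter (psat c)) < dm S := by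
  unfold dm
  apply Submodule.finrank_lt_finrank_of_lt
  have hle : dir (S.filter (psat c)) ≤ dir S := by
    apply Submodule.span_mono
    rintro v ⟨x, hx, y, hy, rfl⟩
    exact ⟨x, (Finset.mem_filter.mp hx).1, y, (Finset.mem_filter.mp hy).1, rfl⟩
  refine lt_of_le_of_ne hle ?_
  intro heq
  apply h
  intro x hx
  rw [← heq] at hx
  have hker : dir (S.filter (psat c)) ≤ LinearMap.ker (ellL (n := n) c.1) := by
    unfold dir
    rw [Submodule.span_le]
    rintro v ⟨x, hx, y, hy, rfl⟩
    simp only [SetLike.mem_coe, LinearMap.mem_ker]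
    change ell c.1 (x - y) = 0
    have h1 : ell c.1 x = c.2 := (Finset.mem_filter.mp hx).2
    have h2 : ell c.1 y = c.2 := (Finset.mem_filter.mp hy).2
    rw [ell_sub, h1, h2, sub_self]
  exact hker hx

lemma filter_nonempty {n m : ℕ} (S : Finset (Fin n → ZMod 2)) (c : Par n m)
    (h : ¬ ∀ x ∈ dir S, ell c.1 x = 0) : (S.filter (psat c)).Nonempty := by
  by_contra hne
  rw [Finset.not_nonempty_iff_eq_empty, Finset.filter_eq_empty_iff] at hne
  apply h
  have hker : dir S ≤ LinearMap.ker (ellL (n := n) c.1) := by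
    unfold dir
    rw [Submodule.span_le]
    rintro v ⟨x, hx, y, hy, rfl⟩
    simp only [SetLike.mem_coe, LinearMap.mem_ker]
    change ell c.1 (x - y) = 0
    have h1 : ell c.1 x ≠ c.2 := hne hx
    have h2 : ell c.1 y ≠ c.2 := hne hy
    rw [ell_sub]
    generalize ell c.1 x = a at *
    generalize ell c.1 y = b at *
    generalize c.2 = d at *
    revert a b d
    decide
  intro x hx
  exact hker hx

/-- The rate. -/
noncomputable def rho (n m : ℕ) : ℝ := (1 + Real.exp (-(2 * m / n))) / 2

lemma rho_pos (n m : ℕ) : 0 < rho n m := by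
  unfold rho
  positivity

lemma rho_le_one (n m : ℕ) : rho n m ≤ 1 := by
  unfold rho
  have : Real.exp (-(2 * m / n : ℝ)) ≤ 1 := by
    apply Real.exp_le_one_iff.mpr
    have : (0 : ℝ) ≤ 2 * m / n := by positivity
    linarith
  linarith

/-- The product of the success probabilities of the steps. -/
noncomputable def Pi (n m d : ℕ) : ℝ := ∏ e ∈ range d, (1 - rho n m ^ (e + 1))

lemma factor_nonneg (n m e : ℕ) : 0 ≤ 1 - rho n m ^ (e + 1) := by
  have := pow_le_one₀ (n := e + 1) (rho_pos n m).le (rho_le_one n m)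
  linarith

lemma factor_le_one (n m e : ℕ) : 1 - rho n m ^ (e + 1) ≤ 1 := by
  have := pow_pos (rho_pos n m) (e + 1)
  linarith

lemma Pi_nonneg (n m d : ℕ) : 0 ≤ Pi n m d :=
  Finset.prod_nonneg fun e _ => factor_nonneg n m e

lemma Pi_succ (n m d : ℕ) : Pi n m (d + 1) = Pi n m d * (1 - rho n m ^ (d + 1)) := by
  simp [Pi, Finset.prod_range_succ]

lemma Pi_anti (n m : ℕ) {d d' : ℕ} (h : d ≤ d') : Pi n m d' ≤ Pi n m d := by
  induction d', h using Nat.le_induction with
  | base => exact le_refl _
  | succ k _ ih =>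
    rw [Pi_succ]
    have h1 := factor_le_one n m k
    have h2 := Pi_nonneg n m k
    nlinarith

open Classical in
lemma card_nonconst {n m : ℕ} (hn : 1 ≤ n) (hm : Odd m) (S : Finset (Fin n → ZMod 2)) :
    (1 - rho n m ^ dm S) * Fintype.card (Par n m) ≤
      ((univ.filter fun c : Par n m => ¬ ∀ x ∈ dir S, ell c.1 x = 0).card : ℝ) := by
  have h1 := card_vanish_le hn hm (dir S)
  have hcardP : (Fintype.card (Par n m) : ℝ) = (n : ℝ) ^ m * 2 := by
    rw [Fintype.card_prod, ZMod.card]
    simp
  have h2 : ((univ.filter fun c : Par n m => ∀ x ∈ dir S, ell c.1 x = 0).card : ℝ)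
      = ((univ.filter fun i : Fin m → Fin n => ∀ x ∈ dir S, ell i x = 0).card : ℝ) * 2 := by
    have e : (univ.filter fun c : Par n m => ∀ x ∈ dir S, ell c.1 x = 0)
        = (univ.filter fun i : Fin m → Fin n => ∀ x ∈ dir S, ell i x = 0) ×ˢ
          (univ : Finset (ZMod 2)) := by
      ext c
      simp
    rw [e, Finset.card_product, Finset.card_univ, ZMod.card]
    push_cast
    rfl
  have h3 : ((univ.filter fun c : Par n m => ∀ x ∈ dir S, ell c.1 x = 0).card : ℝ)
      + ((univ.filter fun c : Par n m => ¬ ∀ x ∈ dir S, ell c.1 x = 0).card : ℝ)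
      = Fintype.card (Par n m) := by
    rw [← Finset.card_univ (α := Par n m)]
    exact_mod_cast Finset.card_filter_add_card_filter_not
      (s := (univ : Finset (Par n m))) (fun c : Par n m => ∀ x ∈ dir S, ell c.1 x = 0)
  have h4 : ((univ.filter fun i : Fin m → Fin n => ∀ x ∈ dir S, ell i x = 0).card : ℝ) * 2
      ≤ rho n m ^ dm S * ((n : ℝ) ^ m * 2) := by
    unfold rho dm
    calc _ ≤ ((n : ℝ) ^ m * ((1 + Real.exp (-(2 * m / n))) / 2) ^
          Module.finrank (ZMod 2) (dir S)) * 2 := by linarith
      _ = _ := by ring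
  rw [hcardP] at h3 ⊢
  rw [h2] at h3
  have h5 : (1 - rho n m ^ dm S) * ((n : ℝ) ^ m * 2)
      = (n : ℝ) ^ m * 2 - rho n m ^ dm S * ((n : ℝ) ^ m * 2) := by ring
  rw [h5]
  linarith

theorem main_rec {n m : ℕ} (hn : 1 ≤ n) (hm : Odd m) :
    ∀ (d : ℕ) (S : Finset (Fin n → ZMod 2)), S.Nonempty → dm S = d →
      Pi n m d ≤ ∑ T ∈ range (d + 1), P n m T S := by
  classical
  intro d
  induction d using Nat.strong_induction_on with
  | _ d ih =>
    intro S hS hd
    rcases Nat.eq_zero_or_pos d with h0 | hpos
    · subst h0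
      have := card_one_of_dm_zero S hS hd
      simp [Pi, P, this]
    · obtain ⟨e, rfl⟩ : ∃ e, d = e + 1 := ⟨d - 1, by omega⟩
      have hcard : (0 : ℝ) < Fintype.card (Par n m) := by
        have : Nonempty (Par n m) := ⟨(fun _ => ⟨0, hn⟩, 0)⟩
        exact_mod_cast Fintype.card_pos
      rw [Finset.sum_range_succ']
      have h0 := P_nonneg n m 0 S
      have hstep : Pi n m (e + 1) ≤ ∑ T ∈ range (e + 1), P n m (T + 1) S := by
        have e1 : ∑ T ∈ range (e + 1), P n m (T + 1) S
            = (∑ c : Par n m, ∑ T ∈ range (e + 1), P n m T (S.filter (psat c)))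
              / Fintype.card (Par n m) := by
          rw [Finset.sum_comm, Finset.sum_div]
          rfl
        rw [e1, le_div_iff₀ hcard]
        have e2 : ∀ c : Par n m, (if ¬ (∀ x ∈ dir S, ell c.1 x = 0) then Pi n m e else 0)
            ≤ ∑ T ∈ range (e + 1), P n m T (S.filter (psat c)) := by
          intro c
          split_ifs with hc
          · exact Finset.sum_nonneg fun T _ => P_nonneg n m T _
          · have hlt := dm_filter_lt S c hc
            have hne := filter_nonempty S c hc
            rw [hd] at hlt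
            have h1 := ih _ hlt _ hne rfl
            have h2 : Pi n m e ≤ Pi n m (dm (S.filter (psat c))) := Pi_anti n m (by omega)
            refine h2.trans (h1.trans ?_)
            apply Finset.sum_le_sum_of_subset_of_nonneg
            · intro T hT
              simp only [Finset.mem_range] at hT ⊢
              omega
            · intro T _ _
              exact P_nonneg n m T _
        calc Pi n m (e + 1) * Fintype.card (Par n m)
            = Pi n m e * ((1 - rho n m ^ dm S) * Fintype.card (Par n m)) := by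
              rw [Pi_succ, hd]; ring
          _ ≤ Pi n m e *
              ((univ.filter fun c : Par n m => ¬ ∀ x ∈ dir S, ell c.1 x = 0).card : ℝ) :=
              mul_le_mul_of_nonneg_left (card_nonconst hn hm S) (Pi_nonneg n m e)
          _ = ∑ c : Par n m, (if ¬ (∀ x ∈ dir S, ell c.1 x = 0) then Pi n m e else 0) := by
              rw [← Finset.sum_filter, Finset.sum_const, nsmul_eq_mul]; ring
          _ ≤ _ := Finset.sum_le_sum fun c _ => e2 c
      linarith

theorem sum_P_ge {n m : ℕ} (hn : 1 ≤ n) (hm : Odd m) (S : Finset (Fin n → ZMod 2))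
    (hS : S.Nonempty) : Pi n m n ≤ ∑ T ∈ range (n + 1), P n m T S := by
  refine (Pi_anti n m (dm_le S)).trans ((main_rec hn hm _ S hS rfl).trans ?_)
  apply Finset.sum_le_sum_of_subset_of_nonneg
  · intro T hT
    simp only [Finset.mem_range] at hT ⊢
    have := dm_le S
    omega
  · intro T _ _
    exact P_nonneg n m T _

end Pool.Agent.Helper38.ISO
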