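import Mathlib
import Pool.Agent.Helper38.ISO.Rec

/-!
# The product bound
-/

set_option autoImplicit false

namespace Pool.Agent.Helper38.ISO

open Finset

lemma geo_le (c : ℝ) (hc : 0 < c) (d : ℕ) :
    ∑ e ∈ range d, Real.exp (-c) ^ (e + 1) ≤ 1 / c := by
  set y := Real.exp (-c)
  have hy0 : 0 < y := Real.exp_pos _
  have hy1 : y < 1 := by
    rw [Real.exp_lt_one_iff]
    linarith
  have h1 : ∀ d : ℕ, (1 - y) * ∑ e ∈ range d, y ^ (e + 1) = y - y ^ (d + 1) := by
    intro d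
    induction d with
    | zero => simp
    | succ k ih => rw [Finset.sum_range_succ, mul_add, ih]; ring
  have h2 := h1 d
  have h3 : 0 < y ^ (d + 1) := by positivity
  have h4 : c * y ≤ 1 - y := by
    have h5 := Real.add_one_le_exp c
    have h6 : y * Real.exp c = 1 := by
      rw [← Real.exp_add]; simp
    nlinarith
  have h7 : 0 < 1 - y := by linarith
  rw [le_div_iff₀ hc]
  have h8 : (1 - y) * ((∑ e ∈ range d, y ^ (e + 1)) * c) ≤ (1 - y) * 1 := by
    calc _ = c * (y - y ^ (d + 1)) := by rw [← h2]; ring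
      _ ≤ c * y := by nlinarith
      _ ≤ _ := by linarith
  exact le_of_mul_le_mul_left h8 h7

lemma neg_log_sum_le (μ : ℝ) (hμ : 0 < μ) (d : ℕ) :
    ∑ e ∈ range d, -Real.log (1 - Real.exp (-μ) ^ (e + 1)) ≤ (Real.pi ^ 2 / 6) * (1 / μ) := by
  set q := Real.exp (-μ)
  have hq0 : 0 < q := Real.exp_pos _
  have hq1 : q < 1 := by
    rw [Real.exp_lt_one_iff]
    linarith
  have hA : HasSum (fun j : ℕ => ∑ e ∈ range d, (q ^ (e + 1)) ^ (j + 1) / ((j : ℝ) + 1))
      (∑ e ∈ range d, -Real.log (1 - q ^ (e + 1))) := by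
    apply hasSum_sum
    intro e _
    apply Real.hasSum_pow_div_log_of_abs_lt_one
    rw [abs_of_pos (by positivity)]
    exact pow_lt_one₀ hq0.le hq1 (by omega)
  have hB : HasSum (fun j : ℕ => 1 / ((j : ℝ) + 1) ^ 2 * (1 / μ))
      ((Real.pi ^ 2 / 6) * (1 / μ)) := by
    apply HasSum.mul_right
    have h := hasSum_zeta_two
    rw [← hasSum_nat_add_iff' 1] at h
    simpa using h
  refine hasSum_le ?_ hA hB
  intro j
  have hj : (0 : ℝ) < (j : ℝ) + 1 := by positivity
  have h1 : ∑ e ∈ range d, (q ^ (e + 1)) ^ (j + 1) / ((j : ℝ) + 1)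
      = (∑ e ∈ range d, Real.exp (-(μ * (j + 1))) ^ (e + 1)) / ((j : ℝ) + 1) := by
    rw [Finset.sum_div]
    apply Finset.sum_congr rfl
    intro e _
    congr 1
    rw [← pow_mul, ← Real.exp_nat_mul, ← Real.exp_nat_mul]
    congr 1
    push_cast
    ring
  rw [h1]
  have h2 := geo_le (μ * (j + 1)) (by positivity) d
  calc _ ≤ (1 / (μ * (j + 1))) / ((j : ℝ) + 1) := by
        apply div_le_div_of_nonneg_right h2 hj.le
    _ = _ := by field_simp

lemma rho_le_exp {n m : ℕ} (hn : 1 ≤ n) (hm : 1 ≤ m) :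
    rho n m ≤ Real.exp (-(1 / ((n : ℝ) / m + 2))) := by
  have hn0 : (0 : ℝ) < n := by exact_mod_cast hn
  have hm0 : (0 : ℝ) < m := by exact_mod_cast hm
  -- the function of `a = m / n`
  have key : ∀ a : ℝ, (1 + Real.exp (-(2 * a))) / 2 ≤ Real.exp (-a + a ^ 2 / 2) := by
    intro a
    have h1 := Real.cosh_le_exp_half_sq a
    have h2 : (1 + Real.exp (-(2 * a))) / 2 = Real.exp (-a) * Real.cosh a := by
      rw [Real.cosh_eq, mul_div_assoc', mul_add, ← Real.exp_add, ← Real.exp_add]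
      congr 2
      · simp
      · congr 1; ring
    rw [h2, Real.exp_add]
    exact mul_le_mul_of_nonneg_left h1 (Real.exp_pos _).le
  set a : ℝ := (m : ℝ) / n with ha
  have ha0 : 0 < a := by positivity
  have hr : rho n m = (1 + Real.exp (-(2 * a))) / 2 := by
    unfold rho
    rw [ha, mul_div_assoc]
  have hb : (n : ℝ) / m = 1 / a := by rw [ha]; field_simp
  have hmu : 1 / ((n : ℝ) / m + 2) = a / (1 + 2 * a) := by
    rw [hb]; field_simp
  rw [hr, hmu]
  rcases le_or_gt a 1 with h | h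
  · refine (key a).trans (Real.exp_le_exp.mpr ?_)
    have h1 : a / (1 + 2 * a) ≤ a - a ^ 2 / 2 := by
      rw [div_le_iff₀ (by positivity)]
      nlinarith [mul_pos ha0 ha0, mul_nonneg (mul_pos ha0 ha0).le (sub_nonneg.mpr h)]
    linarith
  · have h1 : (1 + Real.exp (-(2 * a))) / 2 ≤ (1 + Real.exp (-(2 * 1))) / 2 := by
      have h9 : Real.exp (-(2 * a)) ≤ Real.exp (-(2 * 1)) := Real.exp_le_exp.mpr (by linarith)
      apply div_le_div_of_nonneg_right _ (by norm_num)
      exact add_le_add (le_refl _) h9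
    refine h1.trans ((key 1).trans (Real.exp_le_exp.mpr ?_))
    have h2 : a / (1 + 2 * a) ≤ 1 / 2 := by
      rw [div_le_div_iff₀ (by positivity) (by norm_num)]
      linarith
    linarith

theorem Pi_ge {n m : ℕ} (hn : 1 ≤ n) (hm : 1 ≤ m) (d : ℕ) :
    Real.exp (-(Real.pi ^ 2 / 6 * ((n : ℝ) / m + 2))) ≤ Pi n m d := by
  have hn0 : (0 : ℝ) < n := by exact_mod_cast hn
  have hm0 : (0 : ℝ) < m := by exact_mod_cast hm
  set μ : ℝ := 1 / ((n : ℝ) / m + 2) with hμ
  have hμ0 : 0 < μ := by positivity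
  have hrho := rho_le_exp hn hm
  rw [← hμ] at hrho
  have hq1 : Real.exp (-μ) < 1 := by
    rw [Real.exp_lt_one_iff]
    linarith
  have h1 := neg_log_sum_le μ hμ0 d
  have h2 : (1 : ℝ) / μ = (n : ℝ) / m + 2 := by rw [hμ, one_div_one_div]
  rw [h2, Finset.sum_neg_distrib] at h1
  have h3 : ∏ e ∈ range d, (1 - Real.exp (-μ) ^ (e + 1)) ≤ Pi n m d := by
    unfold Pi
    apply Finset.prod_le_prod
    · intro e _
      have := pow_le_one₀ (n := e + 1) (Real.exp_pos (-μ)).le hq1.le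
      linarith
    · intro e _
      have := pow_le_pow_left₀ (rho_pos n m).le hrho (e + 1)
      linarith
  refine le_trans ?_ h3
  have h4 : ∏ e ∈ range d, (1 - Real.exp (-μ) ^ (e + 1))
      = Real.exp (∑ e ∈ range d, Real.log (1 - Real.exp (-μ) ^ (e + 1))) := by
    rw [Real.exp_sum]
    apply Finset.prod_congr rfl
    intro e _
    rw [Real.exp_log]
    have := pow_lt_one₀ (n := e + 1) (Real.exp_pos (-μ)).le hq1 (by omega)
    linarith
  rw [h4]
  apply Real.exp_le_exp.mpr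
  linarith

end Pool.Agent.Helper38.ISO
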