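import Mathlib
import Pool.Agent.Helper38.ISO.Bnd
import Pool.Agent.Helper38.ISO.Defs

/-!
# Parity constraints as CNF formulas, and the isolating family
-/

set_option autoImplicit false

namespace Pool.Agent.Helper38.ISO

open Finset

/-- Boolean vectors as vectors over `ZMod 2`. -/
def toV {n : ℕ} (x : Fin n → Bool) : Fin n → ZMod 2 := fun i => if x i then 1 else 0

lemma toV_inj {n : ℕ} : Function.Injective (toV (n := n)) := by
  intro x y h
  funext i
  have h1 := congrFun h i
  simp only [toV] at h1
  have h10 : (1 : ZMod 2) ≠ 0 := by decide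
  cases hx : x i <;> cases hy : y i <;> simp_all

/-- The clause excluding the values of `a` on `B`. -/
def clauseOf {n : ℕ} (B : Finset (Fin n)) (a : Fin n → Bool) : Clause n :=
  B.image fun i => (i, !a i)

/-- The parity constraint as a CNF. -/
def pcnf {n m : ℕ} (c : Par n m) : CNF n :=
  (univ.filter fun a : Fin n → Bool => ¬ psat c (toV a)).image
    (clauseOf (univ.image c.1))

lemma isK_pcnf {n m : ℕ} (c : Par n m) : IsK m (pcnf c) := by
  intro C hC
  simp only [pcnf, Finset.mem_image] at hC
  obtain ⟨a, _, rfl⟩ := hC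
  unfold clauseOf
  refine Finset.card_image_le.trans (Finset.card_image_le.trans ?_)
  simp

lemma sat_pcnf {n m : ℕ} (c : Par n m) (x : Fin n → Bool) :
    Sat x (pcnf c) ↔ psat c (toV x) := by
  constructor
  · intro h
    by_contra hn
    obtain ⟨l, hl, hx⟩ := h (clauseOf (univ.image c.1) x) (by
      simp only [pcnf, Finset.mem_image]
      exact ⟨x, by simpa using hn, rfl⟩)
    simp only [clauseOf, Finset.mem_image] at hl
    obtain ⟨i, _, rfl⟩ := hl
    simp at hx
  · intro h C hC
    simp only [pcnf, Finset.mem_image] at hC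
    obtain ⟨a, ha, rfl⟩ := hC
    simp only [mem_filter, mem_univ, true_and] at ha
    by_contra hne
    push Not at hne
    apply ha
    have hag : ∀ j, a (c.1 j) = x (c.1 j) := by
      intro j
      have h1 := hne (c.1 j, !a (c.1 j)) (by
        simp only [clauseOf, Finset.mem_image]
        exact ⟨c.1 j, ⟨j, mem_univ _, rfl⟩, rfl⟩)
      simp only at h1
      cases hx : x (c.1 j) <;> cases hy : a (c.1 j) <;> simp_all
    unfold psat at h ⊢
    rw [← h]
    unfold ell toV
    apply Finset.sum_congr rfl
    intro j _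
    rw [hag j]

/-- The counting form of `P`. -/
noncomputable def cnt (n m N T : ℕ) (S : Finset (Fin n → ZMod 2)) : ℝ :=
  ∑ c : Fin N → Par n m,
    if (S.filter fun x => ∀ t : Fin N, t.val < T → psat (c t) x).card = 1 then (1 : ℝ) else 0

lemma cnt_eq {n m : ℕ} (hn : 1 ≤ n) : ∀ (N T : ℕ) (S : Finset (Fin n → ZMod 2)), T ≤ N →
    cnt n m N T S = P n m T S * (Fintype.card (Par n m) : ℝ) ^ N := by
  classical
  have hcard : (Fintype.card (Par n m) : ℝ) ≠ 0 := by
    have : Nonempty (Par n m) := ⟨(fun _ => ⟨0, hn⟩, 0)⟩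
    have := Fintype.card_pos (α := Par n m)
    positivity
  intro N
  induction N with
  | zero =>
    intro T S hT
    have : T = 0 := by omega
    subst this
    simp [cnt, P]
  | succ N ih =>
    intro T S hT
    cases T with
    | zero =>
      have e : Fintype.card (Fin (N + 1) → Par n m) = Fintype.card (Par n m) ^ (N + 1) := by
        rw [Fintype.card_fun, Fintype.card_fin]
      simp only [cnt, P, Nat.not_lt_zero, false_imp_iff, imp_true_iff, Finset.filter_true,
        Finset.sum_const, Finset.card_univ, nsmul_eq_mul, e]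
      push_cast
      ring
    | succ T =>
      have h1 : cnt n m (N + 1) (T + 1) S
          = ∑ c0 : Par n m, cnt n m N T (S.filter (psat c0)) := by
        unfold cnt
        rw [← (Fin.consEquiv (fun _ : Fin (N + 1) => Par n m)).sum_comp, Fintype.sum_prod_type]
        apply Finset.sum_congr rfl
        intro c0 _
        apply Finset.sum_congr rfl
        intro c' _
        have e : (S.filter fun x => ∀ t : Fin (N + 1), t.val < T + 1 →
            psat ((Fin.consEquiv (fun _ : Fin (N + 1) => Par n m)) (c0, c') t) x)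
            = ((S.filter (psat c0)).filter fun x => ∀ t : Fin N, t.val < T → psat (c' t) x) := by
          ext x
          simp only [Finset.mem_filter, Fin.forall_fin_succ, Fin.consEquiv]
          simp
          tauto
        rw [e]
      rw [h1]
      have h2 : ∀ c0 : Par n m, cnt n m N T (S.filter (psat c0))
          = P n m T (S.filter (psat c0)) * (Fintype.card (Par n m) : ℝ) ^ N :=
        fun c0 => ih T _ (by omega)
      simp_rw [h2]
      rw [← Finset.sum_mul]
      simp only [P]
      field_simp
      ring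

/-- The isolating family. -/
def fam {n m : ℕ} (i : Fin (n + 1) × (Fin n → Par n m)) : CNF n :=
  (univ.filter fun t : Fin n => t.val < i.1.val).biUnion fun t => pcnf (i.2 t)

lemma isK_fam {n m : ℕ} (i : Fin (n + 1) × (Fin n → Par n m)) : IsK m (fam i) := by
  intro C hC
  simp only [fam, Finset.mem_biUnion] at hC
  obtain ⟨t, _, ht⟩ := hC
  exact isK_pcnf _ C ht

lemma sat_fam {n m : ℕ} (i : Fin (n + 1) × (Fin n → Par n m)) (x : Fin n → Bool) :
    Sat x (fam i) ↔ ∀ t : Fin n, t.val < i.1.val → psat (i.2 t) (toV x) := by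
  constructor
  · intro h t ht
    rw [← sat_pcnf]
    intro C hC
    apply h C
    simp only [fam, Finset.mem_biUnion]
    exact ⟨t, by simpa using ht, hC⟩
  · intro h C hC
    simp only [fam, Finset.mem_biUnion] at hC
    obtain ⟨t, ht, hC⟩ := hC
    simp only [mem_filter, mem_univ, true_and] at ht
    exact (sat_pcnf _ x).mpr (h t ht) C hC

lemma isolates_iff {n : ℕ} (F : CNF n) (S : Finset (Fin n → Bool)) :
    Isolates F (S : Set (Fin n → Bool)) ↔ (S.filter fun x => Sat x F).card = 1 := by
  rw [Finset.card_eq_one]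
  unfold Isolates
  constructor
  · rintro ⟨x, ⟨h1, h2⟩, h3⟩
    refine ⟨x, ?_⟩
    ext y
    simp only [Finset.mem_filter, Finset.mem_singleton]
    constructor
    · rintro ⟨hy1, hy2⟩
      exact h3 y ⟨hy1, hy2⟩
    · rintro rfl
      exact ⟨h1, h2⟩
  · rintro ⟨x, hx⟩
    have h1 : x ∈ S.filter fun x => Sat x F := by rw [hx]; simp
    rw [Finset.mem_filter] at h1
    refine ⟨x, ⟨h1.1, h1.2⟩, ?_⟩
    rintro y ⟨hy1, hy2⟩
    have : y ∈ S.filter fun x => Sat x F := by
      rw [Finset.mem_filter]; exact ⟨hy1, hy2⟩
    rw [hx] at this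
    simpa using this

/-- **Isolation lemma.** -/
theorem isolation {n m : ℕ} (hn : 1 ≤ n) (hm : Odd m) (S : Finset (Fin n → Bool))
    (hS : S.Nonempty) :
    Real.exp (-(Real.pi ^ 2 / 6 * ((n : ℝ) / m + 2))) *
        (Fintype.card (Par n m) : ℝ) ^ n ≤
      ∑ i : Fin (n + 1) × (Fin n → Par n m),
        if (S.filter fun x => Sat x (fam i)).card = 1 then (1 : ℝ) else 0 := by
  classical
  have hm1 : 1 ≤ m := hm.pos
  set S' := S.image toV with hS'
  have hS'ne : S'.Nonempty := hS.image _
  have h1 : ∀ i : Fin (n + 1) × (Fin n → Par n m),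
      (S.filter fun x => Sat x (fam i)).card
        = (S'.filter fun x => ∀ t : Fin n, t.val < i.1.val → psat (i.2 t) x).card := by
    intro i
    rw [hS', Finset.filter_image, Finset.card_image_of_injective _ toV_inj]
    congr 1
    apply Finset.filter_congr
    intro x _
    exact sat_fam i x
  simp_rw [h1]
  rw [Fintype.sum_prod_type]
  have h2 : ∀ T : Fin (n + 1), (∑ c : Fin n → Par n m,
      if (S'.filter fun x => ∀ t : Fin n, t.val < T.val → psat (c t) x).card = 1
        then (1 : ℝ) else 0) = P n m T.val S' * (Fintype.card (Par n m) : ℝ) ^ n := by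
    intro T
    exact cnt_eq hn n T.val S' (by omega)
  simp only [h2]
  rw [← Finset.sum_mul, Fin.sum_univ_eq_sum_range (fun T => P n m T S')]
  apply mul_le_mul_of_nonneg_right _ (by positivity)
  exact (Pi_ge hn hm1 n).trans (sum_P_ge hn hm S' hS'ne)

end Pool.Agent.Helper38.ISO
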