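import Mathlib
import Pool.Agent.Helper38.ISO.Bar

/-!
# Subcubes as solution sets of `1`-CNFs
-/

set_option autoImplicit false

namespace Pool.Agent.Helper38.ISO

open Finset

/-- The `1`-CNF fixing the coordinates outside `M` to the values of `a`. -/
def cubeCnf {n : ℕ} (M : Finset (Fin n)) (a : Fin n → Bool) : CNF n :=
  (univ.filter fun i => i ∉ M).image fun i => {(i, a i)}

lemma isK_cubeCnf {n : ℕ} (M : Finset (Fin n)) (a : Fin n → Bool) : IsK 1 (cubeCnf M a) := by
  intro C hC
  simp only [cubeCnf, Finset.mem_image] at hC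
  obtain ⟨i, _, rfl⟩ := hC
  simp

lemma sat_cubeCnf {n : ℕ} (M : Finset (Fin n)) (a x : Fin n → Bool) :
    Sat x (cubeCnf M a) ↔ x ∈ cube M a := by
  constructor
  · intro h i hi
    obtain ⟨l, hl, hx⟩ := h {(i, a i)} (by
      simp only [cubeCnf, Finset.mem_image]
      exact ⟨i, by simpa using hi, rfl⟩)
    rw [Finset.mem_singleton] at hl
    subst hl
    exact hx
  · intro h C hC
    simp only [cubeCnf, Finset.mem_image] at hC
    obtain ⟨i, hi, rfl⟩ := hC
    simp only [mem_filter, mem_univ, true_and] at hi
    exact ⟨(i, a i), by simp, h i hi⟩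

lemma card_cubeCnf {n : ℕ} (M : Finset (Fin n)) (a : Fin n → Bool) :
    Nat.card {x : Fin n → Bool // Sat x (cubeCnf M a)} = 2 ^ M.card := by
  have e : {x : Fin n → Bool // Sat x (cubeCnf M a)} ≃ (M → Bool) :=
    { toFun := fun x i => x.1 i.1
      invFun := fun y => ⟨fun i => if h : i ∈ M then y ⟨i, h⟩ else a i, by
        rw [sat_cubeCnf]
        intro i hi
        simp [hi]⟩
      left_inv := by
        intro x
        apply Subtype.ext
        funext i
        by_cases h : i ∈ M
        · simp [h]
        · simp only [h, dite_false]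
          exact (((sat_cubeCnf M a x.1).mp x.2) i h).symm
      right_inv := by
        intro y
        funext i
        simp }
  rw [Nat.card_congr e, Nat.card_eq_fintype_card, Fintype.card_fun]
  simp

end Pool.Agent.Helper38.ISO
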